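import Pool.Agent.X280.SRB.Defs

/-!
# Terms, substitutions, contexts
-/

set_option autoImplicit false

universe u

namespace Pool.Agent.X280.SRB

open WithInf

instance : Add Term := ⟨Term.add⟩
instance : Mul Term := ⟨Term.mul⟩

/-- The variables of a term. -/
def Term.vars : Term → Finset ℕ
  | .var n => {n}
  | .add s t => s.vars ∪ t.vars
  | .mul s t => s.vars ∪ t.vars

/-- Substitution. -/
def Term.subst (σ : ℕ → Term) : Term → Term
  | .var n => σ n
  | .add s t => .add (s.subst σ) (t.subst σ)
  | .mul s t => .mul (s.subst σ) (t.subst σ)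

section
variable {S : Type u} [SR S]

@[simp] lemma eval_var (f : ℕ → S) (n : ℕ) : (Term.var n).eval f = f n := rfl
@[simp] lemma eval_add (f : ℕ → S) (s t : Term) : (s + t).eval f = s.eval f + t.eval f := rfl
@[simp] lemma eval_mul (f : ℕ → S) (s t : Term) : (s * t).eval f = s.eval f * t.eval f := rfl
@[simp] lemma vars_var (n : ℕ) : (Term.var n).vars = {n} := rfl
@[simp] lemma vars_add (s t : Term) : (s + t).vars = s.vars ∪ t.vars := rfl
@[simp] lemma vars_mul (s t : Term) : (s * t).vars = s.vars ∪ t.vars := rfl
@[simp] lemma subst_var (σ : ℕ → Term) (n : ℕ) : (Term.var n).subst σ = σ n := rfl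
@[simp] lemma subst_add (σ : ℕ → Term) (s t : Term) : (s + t).subst σ = s.subst σ + t.subst σ := rfl
@[simp] lemma subst_mul (σ : ℕ → Term) (s t : Term) : (s * t).subst σ = s.subst σ * t.subst σ := rfl

/-- Induction on terms, in terms of `+` and `*`. -/
lemma term_ind {P : Term → Prop} (hv : ∀ n, P (.var n)) (ha : ∀ s t, P s → P t → P (s + t))
    (hm : ∀ s t, P s → P t → P (s * t)) : ∀ t, P t
  | .var n => hv n
  | .add s t => ha s t (term_ind hv ha hm s) (term_ind hv ha hm t)
  | .mul s t => hm s t (term_ind hv ha hm s) (term_ind hv ha hm t)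

lemma eval_subst (σ : ℕ → Term) (f : ℕ → S) (t : Term) :
    (t.subst σ).eval f = t.eval (fun n => (σ n).eval f) := by
  induction t using term_ind with
  | hv n => rfl
  | ha s t hs ht => simp [hs, ht]
  | hm s t hs ht => simp [hs, ht]

lemma eval_congr {f g : ℕ → S} {t : Term} (h : ∀ n ∈ t.vars, f n = g n) : t.eval f = t.eval g := by
  induction t using term_ind with
  | hv n => exact h n (by simp)
  | ha s t hs ht =>
    simp only [eval_add]
    rw [hs fun n hn => h n (by simp [hn]), ht fun n hn => h n (by simp [hn])]
  | hm s t hs ht =>
    simp only [eval_mul]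
    rw [hs fun n hn => h n (by simp [hn]), ht fun n hn => h n (by simp [hn])]

lemma mem_vars_subst (σ : ℕ → Term) (t : Term) (m : ℕ) :
    m ∈ (t.subst σ).vars ↔ ∃ n ∈ t.vars, m ∈ (σ n).vars := by
  induction t using term_ind with
  | hv n => simp
  | ha s t hs ht => simp only [subst_add, vars_add, Finset.mem_union, hs, ht]; aesop
  | hm s t hs ht => simp only [subst_mul, vars_mul, Finset.mem_union, hs, ht]; aesop

lemma vars_nonempty (t : Term) : t.vars.Nonempty := by
  induction t using term_ind with
  | hv n => simp
  | ha s t hs ht => exact hs.mono (by simp)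
  | hm s t hs ht => exact hs.mono (by simp)

lemma subst_subst (σ τ : ℕ → Term) (t : Term) :
    (t.subst σ).subst τ = t.subst (fun n => (σ n).subst τ) := by
  induction t using term_ind with
  | hv n => rfl
  | ha s t hs ht => simp [hs, ht]
  | hm s t hs ht => simp [hs, ht]

lemma subst_id (t : Term) : t.subst Term.var = t := by
  induction t using term_ind with
  | hv n => rfl
  | ha s t hs ht => simp [hs, ht]
  | hm s t hs ht => simp [hs, ht]

end

/-! ### Identities of `S ∪ {∞}` -/

section
variable {S : Type u} [SR S]

lemma of_add (a b : S) : (of (a + b) : WithInf S) = of a + of b := rfl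
lemma of_mul (a b : S) : (of (a * b) : WithInf S) = of a * of b := rfl
lemma inf_add (a : WithInf S) : (inf : WithInf S) + a = inf := by cases a <;> rfl
lemma add_inf (a : WithInf S) : a + (inf : WithInf S) = inf := by cases a <;> rfl
lemma inf_mul (a : WithInf S) : (inf : WithInf S) * a = inf := by cases a <;> rfl
lemma mul_inf (a : WithInf S) : a * (inf : WithInf S) = inf := by cases a <;> rfl

lemma eval_of (f : ℕ → S) (t : Term) : t.eval (fun n => of (f n)) = of (t.eval f) := by
  induction t using term_ind with
  | hv n => rfl
  | ha s t hs ht => simp [hs, ht, of_add]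
  | hm s t hs ht => simp [hs, ht, of_mul]

lemma eval_inf {f : ℕ → WithInf S} {t : Term} {n : ℕ} (hn : n ∈ t.vars) (hf : f n = inf) :
    t.eval f = inf := by
  induction t using term_ind with
  | hv m =>
    simp only [vars_var, Finset.mem_singleton] at hn
    subst hn; exact hf
  | ha s t hs ht =>
    simp only [vars_add, Finset.mem_union] at hn
    rcases hn with hn | hn
    · rw [eval_add, hs hn, inf_add]
    · rw [eval_add, ht hn, add_inf]
  | hm s t hs ht =>
    simp only [vars_mul, Finset.mem_union] at hn
    rcases hn with hn | hn
    · rw [eval_mul, hs hn, inf_mul]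
    · rw [eval_mul, ht hn, mul_inf]

/-- A regular identity of `S` holds in `S ∪ {∞}`. -/
lemma holds_withInf [Nonempty S] {e : Term × Term} (hv : e.1.vars = e.2.vars) (h : Holds S e) :
    Holds (WithInf S) e := by
  intro f
  by_cases hf : ∃ n ∈ e.1.vars, f n = inf
  · obtain ⟨n, hn, hf⟩ := hf
    rw [eval_inf hn hf, eval_inf (hv ▸ hn) hf]
  · push Not at hf
    obtain ⟨s0⟩ := ‹Nonempty S›
    let g : ℕ → S := fun n => match f n with
      | of a => a
      | inf => s0
    have hg : ∀ n ∈ e.1.vars, f n = of (g n) := by
      intro n hn
      have := hf n hn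
      simp only [g]
      rcases hfn : f n with a | _
      · rfl
      · exact absurd hfn this
    rw [eval_congr hg, eval_congr (fun n hn => hg n (hv ▸ hn) : ∀ n ∈ e.2.vars, f n = of (g n)),
      eval_of, eval_of, h g]

/-- An identity of `S ∪ {∞}` holds in `S`. -/
lemma holds_of_withInf {e : Term × Term} (h : Holds (WithInf S) e) : Holds S e := by
  intro f
  have := h (fun n => of (f n))
  rw [eval_of, eval_of] at this
  exact WithInf.of.inj this

lemma vars_sub_of_withInf [Nonempty S] {e : Term × Term} (h : Holds (WithInf S) e) :
    e.1.vars ⊆ e.2.vars := by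
  intro n hn
  by_contra hn2
  obtain ⟨s0⟩ := ‹Nonempty S›
  have h1 := h (fun m => if m = n then inf else of s0)
  rw [eval_inf hn (by simp), eval_congr (g := fun m => of s0) (fun m hm => by
    have : m ≠ n := fun hmn => hn2 (hmn ▸ hm)
    simp [this]), eval_of (fun _ => s0)] at h1
  cases h1

/-- An identity of `S ∪ {∞}` is regular. -/
lemma vars_eq_of_withInf [Nonempty S] {e : Term × Term} (h : Holds (WithInf S) e) :
    e.1.vars = e.2.vars :=
  (vars_sub_of_withInf h).antisymm
    (vars_sub_of_withInf (e := (e.2, e.1)) (fun f => (h f).symm))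

end

/-! ### Contexts -/

section
variable {M : Type*} [Mul M] [Add M]

/-- Multiplication by an optional element on the left. -/
def lm (p : Option M) (t : M) : M := match p with
  | none => t
  | some a => a * t

/-- Multiplication by an optional element on the right. -/
def rm (t : M) (q : Option M) : M := match q with
  | none => t
  | some b => t * b

/-- Addition of an optional element. -/
def ax (t : M) (c : Option M) : M := match c with
  | none => t
  | some c => t + c

/-- Context. -/
def cx (p q : Option M) (t : M) : M := rm (lm p t) q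

end

section
variable {S : Type u} [SR S]

lemma cx_add (p q : Option S) (s t : S) : cx p q (s + t) = cx p q s + cx p q t := by
  cases p <;> cases q <;> simp [cx, lm, rm, mul_add, add_mul]

lemma eval_cx (f : ℕ → S) (p q : Option Term) (t : Term) :
    (cx p q t).eval f = cx (p.map (Term.eval f)) (q.map (Term.eval f)) (t.eval f) := by
  cases p <;> cases q <;> simp [cx, lm, rm]

lemma eval_ax (f : ℕ → S) (c : Option Term) (t : Term) :
    (ax t c).eval f = ax (t.eval f) (c.map (Term.eval f)) := by
  cases c <;> simp [ax]

/-- `w * cx p q s` is a context applied to `s`. -/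
lemma mul_cx (p q : Option S) (w s : S) :
    w * cx p q s = cx (some (match p with | none => w | some a => w * a)) q s := by
  cases p <;> cases q <;> simp [cx, lm, rm, mul_assoc]

lemma cx_mul (p q : Option S) (w s : S) :
    cx p q s * w = cx p (some (match q with | none => w | some b => b * w)) s := by
  cases p <;> cases q <;> simp [cx, lm, rm, mul_assoc]

lemma cx_of_mul_left (p q : Option S) (w s : S) :
    cx p q (w * s) = cx (some (match p with | none => w | some a => a * w)) q s := by
  cases p <;> cases q <;> simp [cx, lm, rm, mul_assoc]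

lemma cx_of_mul_right (p q : Option S) (w s : S) :
    cx p q (s * w) = cx p (some (match q with | none => w | some b => w * b)) s := by
  cases p <;> cases q <;> simp [cx, lm, rm, mul_assoc]

lemma absorb_cx {A B : S} (h : A + B = A) (p q c : Option S) :
    ax (cx p q A) c + cx p q B = ax (cx p q A) c := by
  have : cx p q A + cx p q B = cx p q A := by rw [← cx_add, h]
  cases c with
  | none => exact this
  | some c =>
    change cx p q A + c + cx p q B = cx p q A + c
    rw [add_right_comm, this]

end

end Pool.Agent.X280.SRB
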