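import Mathlib

/-!
# Semirings, identities, finite bases and the extension by an absorbing element
-/

set_option autoImplicit false

universe u

namespace Pool.Agent.X280.SRB

/-- A semiring in the sense of the problem: `(S, +)` is a commutative semigroup, `(S, *)` a semigroup,
and both distributive laws hold.  No zero and no identity element are assumed. -/
class SR (S : Type u) extends AddCommSemigroup S, Semigroup S, Distrib S

/-- Semiring terms over the countably infinite set of variables `x_0, x_1, …`. -/
inductive Term : Type
  | var : ℕ → Term
  | add : Term → Term → Term
  | mul : Term → Term → Term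

/-- The value of a term under an assignment of the variables. -/
def Term.eval {S : Type u} [SR S] (f : ℕ → S) : Term → S
  | .var n => f n
  | .add s t => s.eval f + t.eval f
  | .mul s t => s.eval f * t.eval f

/-- The identity `e.1 ≈ e.2` holds in `S`. -/
def Holds (S : Type u) [SR S] (e : Term × Term) : Prop := ∀ f : ℕ → S, e.1.eval f = e.2.eval f

/-- `S` is finitely based: there is a finite set `B` of identities that defines the variety of `S`, the
class of all semirings which satisfy every identity of `S`. -/
def FinitelyBased (S : Type u) [SR S] : Prop :=
  ∃ B : Set (Term × Term), B.Finite ∧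
    ∀ (T : Type u) [SR T], (∀ e ∈ B, Holds T e) ↔ ∀ e, Holds S e → Holds T e

/-- The set `S ∪ {∞}`. -/
inductive WithInf (S : Type u) : Type u
  | of : S → WithInf S
  | inf : WithInf S

namespace WithInf

variable {S : Type u} [SR S]

/-- The addition of `S ∪ {∞}`: it extends the one of `S`, and `∞` is absorbing. -/
def add : WithInf S → WithInf S → WithInf S
  | of a, of b => of (a + b)
  | _, _ => inf

/-- The multiplication of `S ∪ {∞}`: it extends the one of `S`, and `∞` is absorbing. -/
def mul : WithInf S → WithInf S → WithInf S
  | of a, of b => of (a * b)
  | _, _ => inf

/-- The semiring `S ∪ {∞}`. -/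
instance : SR (WithInf S) where
  add := add
  mul := mul
  add_assoc := by
    rintro (a | _) (b | _) (c | _) <;> first | rfl | exact congrArg of (add_assoc a b c)
  add_comm := by
    rintro (a | _) (b | _) <;> first | rfl | exact congrArg of (add_comm a b)
  mul_assoc := by
    rintro (a | _) (b | _) (c | _) <;> first | rfl | exact congrArg of (mul_assoc a b c)
  left_distrib := by
    rintro (a | _) (b | _) (c | _) <;> first | rfl | exact congrArg of (mul_add a b c)
  right_distrib := by
    rintro (a | _) (b | _) (c | _) <;> first | rfl | exact congrArg of (add_mul a b c)

end WithInf

end Pool.Agent.X280.SRB
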