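import Pool.Agent.X280.SRB.Quot

/-!
# Replacing a variable `x` by `x + z`
-/

set_option autoImplicit false

universe u

namespace Pool.Agent.X280.SRB

section
variable {S : Type u} [SR S]

/-- `g` contains a summand `α y β`. -/
def Has (y g : S) : Prop := (∃ α β, g = α * y * β) ∨ ∃ g' α β, g = g' + α * y * β

lemma Has.mul_left {y g : S} (h : Has y g) (s : S) : Has y (s * g) := by
  rcases h with ⟨α, β, rfl⟩ | ⟨g', α, β, rfl⟩
  · exact Or.inl ⟨s * α, β, by simp only [mul_assoc]⟩
  · exact Or.inr ⟨s * g', s * α, β, by simp only [mul_assoc, mul_add]⟩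

lemma Has.mul_right {y g : S} (h : Has y g) (s : S) : Has y (g * s) := by
  rcases h with ⟨α, β, rfl⟩ | ⟨g', α, β, rfl⟩
  · exact Or.inl ⟨α, β * s, by simp only [mul_assoc]⟩
  · exact Or.inr ⟨g' * s, α, β * s, by simp only [mul_assoc, add_mul]⟩

lemma Has.add_left {y g : S} (h : Has y g) (s : S) : Has y (s + g) := by
  rcases h with ⟨α, β, rfl⟩ | ⟨g', α, β, rfl⟩
  · exact Or.inr ⟨s, α, β, rfl⟩
  · exact Or.inr ⟨s + g', α, β, by rw [add_assoc]⟩

lemma Has.add_right {y g : S} (h : Has y g) (s : S) : Has y (g + s) := by
  rw [add_comm]; exact h.add_left s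

lemma Has.cx {y g : S} (h : Has y g) (p q : Option S) : Has y (cx p q g) := by
  cases p <;> cases q <;> simp only [SRB.cx, lm, rm]
  · exact h
  · exact h.mul_right _
  · exact h.mul_left _
  · exact (h.mul_left _).mul_right _

end

/-- The derivative term: `t(x + z) = t(x) + D(x, z)`. -/
lemma exists_der (x k : ℕ) (t : Term) (hx : x ∈ t.vars) : ∃ D : Term,
    D.vars ⊆ t.vars ∪ {k} ∧ k ∈ D.vars ∧
    (∀ (T : Type u) [SR T] (f : ℕ → T),
      t.eval (Function.update f x (f x + f k)) = t.eval f + D.eval f) ∧
    (∀ (T : Type u) [SR T] (f : ℕ → T) (y : T), f k = y * y * y → Has y (D.eval f)) := by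
  have hno : ∀ s : Term, x ∉ s.vars → ∀ (T : Type u) [SR T] (f : ℕ → T),
      s.eval (Function.update f x (f x + f k)) = s.eval f := by
    intro s hs T _ f
    refine eval_congr fun n hn => ?_
    have : n ≠ x := fun h => hs (h ▸ hn)
    simp [this]
  induction t using term_ind with
  | hv n =>
    simp only [vars_var, Finset.mem_singleton] at hx
    subst hx
    refine ⟨.var k, by simp, by simp, ?_, ?_⟩
    · intro T _ f; simp
    · intro T _ f y hy
      exact Or.inl ⟨y, y, by simp [hy]⟩
  | ha s t hs ht =>
    by_cases h1 : x ∈ s.vars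
    · obtain ⟨D1, a1, b1, c1, d1⟩ := hs h1
      by_cases h2 : x ∈ t.vars
      · obtain ⟨D2, a2, b2, c2, d2⟩ := ht h2
        refine ⟨D1 + D2, ?_, by simp [b1], ?_, ?_⟩
        · intro m hm
          simp only [vars_add, Finset.mem_union] at hm ⊢
          rcases hm with hm | hm
          · have := a1 hm; simp only [Finset.mem_union] at this; tauto
          · have := a2 hm; simp only [Finset.mem_union] at this; tauto
        · intro T _ f
          simp only [eval_add, c1, c2]
          rw [add_add_add_comm]
        · intro T _ f y hy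
          exact (d1 T f y hy).add_right _
      · refine ⟨D1, ?_, b1, ?_, d1⟩
        · intro m hm
          have := a1 hm
          simp only [vars_add, Finset.mem_union] at this ⊢; tauto
        · intro T _ f
          simp only [eval_add, c1, hno t h2]
          rw [add_right_comm]
    · have h2 : x ∈ t.vars := by simpa [h1] using hx
      obtain ⟨D2, a2, b2, c2, d2⟩ := ht h2
      refine ⟨D2, ?_, b2, ?_, d2⟩
      · intro m hm
        have := a2 hm
        simp only [vars_add, Finset.mem_union] at this ⊢; tauto
      · intro T _ f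
        simp only [eval_add, c2, hno s h1]
        rw [add_assoc]
  | hm s t hs ht =>
    by_cases h1 : x ∈ s.vars
    · obtain ⟨D1, a1, b1, c1, d1⟩ := hs h1
      by_cases h2 : x ∈ t.vars
      · obtain ⟨D2, a2, b2, c2, d2⟩ := ht h2
        refine ⟨s * D2 + D1 * (t + D2), ?_, by simp [b1], ?_, ?_⟩
        · intro m hm
          simp only [vars_add, vars_mul, Finset.mem_union] at hm ⊢
          have h3 := @a1 m
          have h4 := @a2 m
          simp only [Finset.mem_union] at h3 h4
          tauto
        · intro T _ f
          simp only [eval_mul, eval_add, c1, c2]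
          rw [add_mul, mul_add (s.eval f) (t.eval f) (D2.eval f), add_assoc]
        · intro T _ f y hy
          exact ((d1 T f y hy).mul_right _).add_left _
      · refine ⟨D1 * t, ?_, by simp [b1], ?_, ?_⟩
        · intro m hm
          simp only [vars_mul, Finset.mem_union] at hm ⊢
          have h3 := @a1 m
          simp only [Finset.mem_union] at h3
          tauto
        · intro T _ f
          simp only [eval_mul, c1, hno t h2, add_mul]
        · intro T _ f y hy
          exact (d1 T f y hy).mul_right _
    · have h2 : x ∈ t.vars := by simpa [h1] using hx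
      obtain ⟨D2, a2, b2, c2, d2⟩ := ht h2
      refine ⟨s * D2, ?_, by simp [b2], ?_, ?_⟩
      · intro m hm
        simp only [vars_mul, Finset.mem_union] at hm ⊢
        have h3 := @a2 m
        simp only [Finset.mem_union] at h3
        tauto
      · intro T _ f
        simp only [eval_mul, c2, hno s h1, mul_add]
      · intro T _ f y hy
        exact (d2 T f y hy).mul_left _

/-! ### Special variables -/

/-- Renaming `x_n` to `x_{n+8}`. -/
def sh (t : Term) : Term := t.subst fun n => .var (n + 8)

/-- The assignment with the values `s` at the eight special variables. -/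
def asg {T : Type u} (s e : ℕ → T) : ℕ → T := fun n => if n < 8 then s n else e (n - 8)

/-- Substitution for the variable `x_0`. -/
def sb (D Z : Term) : Term := D.subst fun n => if n = 0 then Z else .var n

section
variable {T : Type u} [SR T]

/-- The value of the derivative. -/
def Dl (D : Term) (e : ℕ → T) (z : T) : T := D.eval (asg (fun _ => z) e)

omit [SR T] in
lemma asg_sp (s e : ℕ → T) {n : ℕ} (hn : n < 8) : asg s e n = s n := by simp [asg, hn]
omit [SR T] in
lemma asg_sh (s e : ℕ → T) (n : ℕ) : asg s e (n + 8) = e n := by simp [asg]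

lemma eval_sh (s e : ℕ → T) (t : Term) : (sh t).eval (asg s e) = t.eval e := by
  rw [sh, eval_subst]
  exact eval_congr fun n _ => asg_sh s e n

lemma mem_vars_sh (t : Term) (m : ℕ) : m ∈ (sh t).vars ↔ ∃ n ∈ t.vars, m = n + 8 := by
  simp [sh, mem_vars_subst]

lemma eval_sb {D l : Term} (hD : D.vars ⊆ (sh l).vars ∪ {0}) (Z : Term) (s e : ℕ → T) :
    (sb D Z).eval (asg s e) = Dl D e (Z.eval (asg s e)) := by
  rw [sb, eval_subst, Dl]
  refine eval_congr fun n hn => ?_
  have := hD hn
  simp only [Finset.mem_union, Finset.mem_singleton, mem_vars_sh] at this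
  rcases this with ⟨m, hm, rfl⟩ | rfl
  · rw [if_neg (by omega), eval_var, asg_sh, asg_sh]
  · rw [if_pos rfl, asg_sp _ _ (by norm_num)]

lemma vars_sb {D l : Term} (hD : D.vars ⊆ (sh l).vars ∪ {0}) (h0 : 0 ∈ D.vars) (Z : Term) (m : ℕ) :
    m ∈ (sb D Z).vars ↔ m ∈ Z.vars ∨ (m ∈ D.vars ∧ m ≠ 0) := by
  rw [sb, mem_vars_subst]
  constructor
  · rintro ⟨n, hn, hm⟩
    by_cases h : n = 0
    · left; simpa [h] using hm
    · right
      simp only [h, if_false, vars_var, Finset.mem_singleton] at hm
      subst hm; exact ⟨hn, h⟩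
  · rintro (h | ⟨h1, h2⟩)
    · exact ⟨0, h0, by simpa using h⟩
    · exact ⟨m, h1, by simp [h2]⟩

/-- The variables of `l + D(Z)`. -/
lemma vars_sb' {D l : Term} (hD : D.vars ⊆ (sh l).vars ∪ {0}) (h0 : 0 ∈ D.vars) (Z : Term) :
    (sh l).vars ∪ (sb D Z).vars = (sh l).vars ∪ Z.vars := by
  ext m
  simp only [Finset.mem_union, vars_sb hD h0]
  constructor
  · rintro (h | h | ⟨h1, h2⟩)
    · exact Or.inl h
    · exact Or.inr h
    · have := hD h1
      simp only [Finset.mem_union, Finset.mem_singleton, h2, or_false] at this
      exact Or.inl this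
  · rintro (h | h)
    · exact Or.inl h
    · exact Or.inr (Or.inl h)

lemma holds_iff (e : Term × Term) :
    Holds T e ↔ ∀ s f : ℕ → T, e.1.eval (asg s f) = e.2.eval (asg s f) := by
  constructor
  · intro h s f; exact h _
  · intro h f
    have := h f (fun n => f (n + 8))
    have hf : asg f (fun n => f (n + 8)) = f := by
      funext n
      by_cases hn : n < 8
      · exact asg_sp _ _ hn
      · simp only [asg, hn, if_false]
        congr 1; omega
    rwa [hf] at this

end

end Pool.Agent.X280.SRB
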