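import Pool.Agent.X280.SRB.Der

/-!
# Finitely many regular identities
-/

set_option autoImplicit false

universe u

namespace Pool.Agent.X280.SRB

/-- `P` follows from finitely many regular identities of `S`. -/
def FE (S : Type u) [SR S] (P : ∀ (T : Type u) [SR T], Prop) : Prop :=
  ∃ E : Set (Term × Term), E.Finite ∧ (∀ e ∈ E, Holds S e ∧ e.1.vars = e.2.vars) ∧
    ∀ (T : Type u) [SR T], (∀ e ∈ E, Holds T e) → P T

section
variable {S : Type u} [SR S]

lemma FE.single {e : Term × Term} (hS : Holds S e) (hv : e.1.vars = e.2.vars) :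
    FE S (fun T _ => Holds T e) :=
  ⟨{e}, Set.finite_singleton e, fun e' he => by
    rw [Set.mem_singleton_iff] at he; subst he; exact ⟨hS, hv⟩, fun T _ h => h e rfl⟩

lemma FE.imp {P Q : ∀ (T : Type u) [SR T], Prop} (h : FE S P)
    (hPQ : ∀ (T : Type u) [SR T], P T → Q T) : FE S Q := by
  obtain ⟨E, h1, h2, h3⟩ := h
  exact ⟨E, h1, h2, fun T _ hT => hPQ T (h3 T hT)⟩

lemma FE.and {P Q : ∀ (T : Type u) [SR T], Prop} (h : FE S P) (h' : FE S Q) :
    FE S (fun T _ => P T ∧ Q T) := by
  obtain ⟨E, h1, h2, h3⟩ := h
  obtain ⟨E', h1', h2', h3'⟩ := h'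
  refine ⟨E ∪ E', h1.union h1', ?_, fun T _ hT => ⟨h3 T fun e he => hT e (Or.inl he),
    h3' T fun e he => hT e (Or.inr he)⟩⟩
  rintro e (he | he)
  · exact h2 e he
  · exact h2' e he

lemma FE.ball {ι : Type} {F : Set ι} (hF : F.Finite) {P : ι → ∀ (T : Type u) [SR T], Prop}
    (h : ∀ i ∈ F, FE S (P i)) : FE S (fun T _ => ∀ i ∈ F, P i T) := by
  classical
  choose! E h1 h2 h3 using h
  refine ⟨⋃ i ∈ F, E i, hF.biUnion fun i hi => h1 i hi, ?_, ?_⟩
  · intro e he
    simp only [Set.mem_iUnion] at he
    obtain ⟨i, hi, he⟩ := he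
    exact h2 i hi e he
  · intro T _ hT i hi
    exact h3 i hi T fun e he => hT e (Set.mem_biUnion hi he)

end

/-- The consequences that are used. -/
structure Good (l r D : Term) (T : Type u) [SR T] : Prop where
  v : ∀ n ∈ l.vars, ∀ e : ℕ → T, l.eval e + Dl D e (e n) = l.eval e
  a : ∀ (e : ℕ → T) (a : T), a * l.eval e + a * Dl D e a = a * l.eval e
  b : ∀ (e : ℕ → T) (b : T), l.eval e * b + Dl D e b * b = l.eval e * b
  c : ∀ (e : ℕ → T) (p q : Option T) (c : T),
    cx p q (l.eval e) + c + cx p q (Dl D e c) = cx p q (l.eval e) + c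
  add : ∀ (e : ℕ → T) (y z : T), l.eval e + Dl D e y + Dl D e z + Dl D e (y + z) =
    l.eval e + Dl D e y + Dl D e z
  mul : ∀ (e : ℕ → T) (y z : T), l.eval e + Dl D e y + Dl D e z + Dl D e (y * z) =
    l.eval e + Dl D e y + Dl D e z
  of_add : ∀ (e : ℕ → T) (y z : T), l.eval e + Dl D e (y + z) + Dl D e y =
    l.eval e + Dl D e (y + z)
  of_mul_left : ∀ (e : ℕ → T) (y z : T), l.eval e + Dl D e (y * z) + Dl D e y =
    l.eval e + Dl D e (y * z)
  of_mul_right : ∀ (e : ℕ → T) (y z : T), l.eval e + Dl D e (y * z) + Dl D e z =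
    l.eval e + Dl D e (y * z)
  guard : ∀ (e : ℕ → T) (p q : Option T) (α β : T),
    cx p q (l.eval e) + α * (l.eval e * r.eval e) * β =
      cx p q (r.eval e) + α * (l.eval e * r.eval e) * β

section
variable {S : Type u} [SR S]

/-- The pattern. -/
def pat (b : Bool) (k : ℕ) : Option Term := if b then some (.var k) else none

lemma exists_pat {T : Type u} [SR T] (p q : Option T) (w : ℕ → T) : ∃ (b b' : Bool) (s : ℕ → T),
    (∀ n, n ≠ 1 → n ≠ 2 → s n = w n) ∧ ∀ e : ℕ → T,
      (pat b 1).map (Term.eval (asg s e)) = p ∧ (pat b' 2).map (Term.eval (asg s e)) = q := by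
  refine ⟨p.isSome, q.isSome, fun n => if n = 1 then p.getD (w 1) else if n = 2 then q.getD (w 2)
    else w n, ?_, ?_⟩
  · intro n h1 h2; simp [h1, h2]
  · intro e
    constructor
    · cases p <;> simp [pat, asg]
    · cases q <;> simp [pat, asg]

theorem good_fe {l r D : Term} (hlr : Holds S (l, r)) (hD : D.vars ⊆ (sh l).vars ∪ {0})
    (h0 : 0 ∈ D.vars) (hab : ∀ (e : ℕ → S) (z : S), l.eval e + Dl D e z = l.eval e) :
    FE S (Good l r D) := by
  have hV : ∀ Z m, (m ∈ (sh l).vars ∨ m ∈ (sb D Z).vars) ↔ (m ∈ (sh l).vars ∨ m ∈ Z.vars) := by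
    intro Z m
    have := congrArg (m ∈ ·) (vars_sb' hD h0 Z)
    simpa only [Finset.mem_union, eq_iff_iff] using this
  have fv : FE S (fun T _ => ∀ n ∈ (↑l.vars : Set ℕ), ∀ e : ℕ → T,
      l.eval e + Dl D e (e n) = l.eval e) := by
    refine FE.ball l.vars.finite_toSet fun n hn => ?_
    refine (FE.single (S := S) (e := (sh l, sh l + sb D (.var (n + 8)))) ?_ ?_).imp ?_
    · rw [holds_iff]
      intro s e
      simp only [eval_add, eval_sh, eval_sb hD, hab]
    · ext m
      have h1 := hV (.var (n + 8)) m
      have h2 : n + 8 ∈ (sh l).vars := (mem_vars_sh l _).2 ⟨n, hn, rfl⟩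
      simp only [vars_add, Finset.mem_union, vars_var, Finset.mem_singleton] at h1 ⊢
      rw [h1]
      constructor
      · exact Or.inl
      · rintro (h | rfl)
        · exact h
        · exact h2
    · intro T _ h e
      rw [holds_iff] at h
      have := h e e
      simp only [eval_add, eval_sh, eval_sb hD, eval_var, asg_sh] at this
      exact this.symm
  have fa : FE S (fun T _ => ∀ (e : ℕ → T) (a : T),
      a * l.eval e + a * Dl D e a = a * l.eval e) := by
    refine (FE.single (S := S) (e := (.var 1 * sh l, .var 1 * sh l + .var 1 * sb D (.var 1)))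
      ?_ ?_).imp ?_
    · rw [holds_iff]
      intro s e
      simp only [eval_add, eval_mul, eval_sh, eval_sb hD, ← mul_add, hab]
    · ext m
      have h1 := hV (.var 1) m
      simp only [vars_add, vars_mul, Finset.mem_union, vars_var, Finset.mem_singleton] at h1 ⊢
      tauto
    · intro T _ h e a
      rw [holds_iff] at h
      have := h (fun _ => a) e
      simp only [eval_add, eval_mul, eval_sh, eval_sb hD, eval_var,
        asg_sp (fun _ => a) e (show 1 < 8 by norm_num)] at this
      exact this.symm
  have fb : FE S (fun T _ => ∀ (e : ℕ → T) (b : T),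
      l.eval e * b + Dl D e b * b = l.eval e * b) := by
    refine (FE.single (S := S) (e := (sh l * .var 1, sh l * .var 1 + sb D (.var 1) * .var 1))
      ?_ ?_).imp ?_
    · rw [holds_iff]
      intro s e
      simp only [eval_add, eval_mul, eval_sh, eval_sb hD, ← add_mul, hab]
    · ext m
      have h1 := hV (.var 1) m
      simp only [vars_add, vars_mul, Finset.mem_union, vars_var, Finset.mem_singleton] at h1 ⊢
      tauto
    · intro T _ h e a
      rw [holds_iff] at h
      have := h (fun _ => a) e
      simp only [eval_add, eval_mul, eval_sh, eval_sb hD, eval_var,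
        asg_sp (fun _ => a) e (show 1 < 8 by norm_num)] at this
      exact this.symm
  have fc : FE S (fun T _ => ∀ i ∈ (Set.univ : Set (Bool × Bool)), Holds T
      (cx (pat i.1 1) (pat i.2 2) (sh l) + .var 3,
        cx (pat i.1 1) (pat i.2 2) (sh l) + .var 3 +
          cx (pat i.1 1) (pat i.2 2) (sb D (.var 3)))) := by
    refine FE.ball Set.finite_univ fun i _ => FE.single ?_ ?_
    · rw [holds_iff]
      intro s e
      simp only [eval_add, eval_cx, eval_sh, eval_sb hD]
      rw [add_right_comm, ← cx_add, hab]
    · ext m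
      have h1 := hV (.var 3) m
      obtain ⟨b, b'⟩ := i
      cases b <;> cases b' <;> simp only [vars_add, vars_mul, Finset.mem_union, vars_var,
        Finset.mem_singleton, cx, lm, rm, pat, if_true, if_false, Bool.false_eq_true] at h1 ⊢ <;>
        tauto
  have fadd : FE S (fun T _ => ∀ (e : ℕ → T) (y z : T),
      l.eval e + Dl D e y + Dl D e z + Dl D e (y + z) = l.eval e + Dl D e y + Dl D e z) := by
    refine (FE.single (S := S) (e := (sh l + sb D (.var 1) + sb D (.var 2),
      sh l + sb D (.var 1) + sb D (.var 2) + sb D (.var 1 + .var 2))) ?_ ?_).imp ?_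
    · rw [holds_iff]
      intro s e
      simp only [eval_add, eval_sh, eval_sb hD, hab]
    · ext m
      have h1 := hV (.var 1) m
      have h2 := hV (.var 2) m
      have h3 := hV (.var 1 + .var 2) m
      simp only [vars_add, vars_mul, Finset.mem_union, vars_var, Finset.mem_singleton]
        at h1 h2 h3 ⊢
      tauto
    · intro T _ h e y z
      rw [holds_iff] at h
      have := h (fun n => if n = 1 then y else z) e
      simp only [eval_add, eval_mul, eval_sh, eval_sb hD, eval_var,
        asg_sp (fun n => if n = 1 then y else z) e (show 1 < 8 by norm_num),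
        asg_sp (fun n => if n = 1 then y else z) e (show 2 < 8 by norm_num), if_true,
        if_neg (show ¬ (2 = 1) by norm_num)] at this
      exact this.symm
  have fmul : FE S (fun T _ => ∀ (e : ℕ → T) (y z : T),
      l.eval e + Dl D e y + Dl D e z + Dl D e (y * z) = l.eval e + Dl D e y + Dl D e z) := by
    refine (FE.single (S := S) (e := (sh l + sb D (.var 1) + sb D (.var 2),
      sh l + sb D (.var 1) + sb D (.var 2) + sb D (.var 1 * .var 2))) ?_ ?_).imp ?_
    · rw [holds_iff]
      intro s e
      simp only [eval_add, eval_sh, eval_sb hD, hab]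
    · ext m
      have h1 := hV (.var 1) m
      have h2 := hV (.var 2) m
      have h3 := hV (.var 1 * .var 2) m
      simp only [vars_add, vars_mul, Finset.mem_union, vars_var, Finset.mem_singleton]
        at h1 h2 h3 ⊢
      tauto
    · intro T _ h e y z
      rw [holds_iff] at h
      have := h (fun n => if n = 1 then y else z) e
      simp only [eval_add, eval_mul, eval_sh, eval_sb hD, eval_var,
        asg_sp (fun n => if n = 1 then y else z) e (show 1 < 8 by norm_num),
        asg_sp (fun n => if n = 1 then y else z) e (show 2 < 8 by norm_num), if_true,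
        if_neg (show ¬ (2 = 1) by norm_num)] at this
      exact this.symm
  have foa : FE S (fun T _ => ∀ (e : ℕ → T) (y z : T),
      l.eval e + Dl D e (y + z) + Dl D e y = l.eval e + Dl D e (y + z)) := by
    refine (FE.single (S := S) (e := (sh l + sb D (.var 1 + .var 2),
      sh l + sb D (.var 1 + .var 2) + sb D (.var 1))) ?_ ?_).imp ?_
    · rw [holds_iff]
      intro s e
      simp only [eval_add, eval_sh, eval_sb hD, hab]
    · ext m
      have h1 := hV (.var 1) m
      have h3 := hV (.var 1 + .var 2) m
      simp only [vars_add, vars_mul, Finset.mem_union, vars_var, Finset.mem_singleton]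
        at h1 h3 ⊢
      tauto
    · intro T _ h e y z
      rw [holds_iff] at h
      have := h (fun n => if n = 1 then y else z) e
      simp only [eval_add, eval_mul, eval_sh, eval_sb hD, eval_var,
        asg_sp (fun n => if n = 1 then y else z) e (show 1 < 8 by norm_num),
        asg_sp (fun n => if n = 1 then y else z) e (show 2 < 8 by norm_num), if_true,
        if_neg (show ¬ (2 = 1) by norm_num)] at this
      exact this.symm
  have fol : FE S (fun T _ => ∀ (e : ℕ → T) (y z : T),
      l.eval e + Dl D e (y * z) + Dl D e y = l.eval e + Dl D e (y * z)) := by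
    refine (FE.single (S := S) (e := (sh l + sb D (.var 1 * .var 2),
      sh l + sb D (.var 1 * .var 2) + sb D (.var 1))) ?_ ?_).imp ?_
    · rw [holds_iff]
      intro s e
      simp only [eval_add, eval_sh, eval_sb hD, hab]
    · ext m
      have h1 := hV (.var 1) m
      have h3 := hV (.var 1 * .var 2) m
      simp only [vars_add, vars_mul, Finset.mem_union, vars_var, Finset.mem_singleton]
        at h1 h3 ⊢
      tauto
    · intro T _ h e y z
      rw [holds_iff] at h
      have := h (fun n => if n = 1 then y else z) e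
      simp only [eval_add, eval_mul, eval_sh, eval_sb hD, eval_var,
        asg_sp (fun n => if n = 1 then y else z) e (show 1 < 8 by norm_num),
        asg_sp (fun n => if n = 1 then y else z) e (show 2 < 8 by norm_num), if_true,
        if_neg (show ¬ (2 = 1) by norm_num)] at this
      exact this.symm
  have for' : FE S (fun T _ => ∀ (e : ℕ → T) (y z : T),
      l.eval e + Dl D e (y * z) + Dl D e z = l.eval e + Dl D e (y * z)) := by
    refine (FE.single (S := S) (e := (sh l + sb D (.var 1 * .var 2),
      sh l + sb D (.var 1 * .var 2) + sb D (.var 2))) ?_ ?_).imp ?_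
    · rw [holds_iff]
      intro s e
      simp only [eval_add, eval_sh, eval_sb hD, hab]
    · ext m
      have h1 := hV (.var 2) m
      have h3 := hV (.var 1 * .var 2) m
      simp only [vars_add, vars_mul, Finset.mem_union, vars_var, Finset.mem_singleton]
        at h1 h3 ⊢
      tauto
    · intro T _ h e y z
      rw [holds_iff] at h
      have := h (fun n => if n = 1 then y else z) e
      simp only [eval_add, eval_mul, eval_sh, eval_sb hD, eval_var,
        asg_sp (fun n => if n = 1 then y else z) e (show 1 < 8 by norm_num),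
        asg_sp (fun n => if n = 1 then y else z) e (show 2 < 8 by norm_num), if_true,
        if_neg (show ¬ (2 = 1) by norm_num)] at this
      exact this.symm
  have fg : FE S (fun T _ => ∀ i ∈ (Set.univ : Set (Bool × Bool)), Holds T
      (cx (pat i.1 1) (pat i.2 2) (sh l) + .var 4 * (sh l * sh r) * .var 5,
        cx (pat i.1 1) (pat i.2 2) (sh r) + .var 4 * (sh l * sh r) * .var 5)) := by
    refine FE.ball Set.finite_univ fun i _ => FE.single ?_ ?_
    · rw [holds_iff]
      intro s e
      simp only [eval_add, eval_mul, eval_cx, eval_sh, hlr e]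
    · ext m
      obtain ⟨b, b'⟩ := i
      cases b <;> cases b' <;> simp only [vars_add, vars_mul, Finset.mem_union, vars_var,
        Finset.mem_singleton, cx, lm, rm, pat, if_true, if_false, Bool.false_eq_true] <;>
        tauto
  refine ((fv.and (fa.and (fb.and (fc.and (fadd.and (fmul.and (foa.and (fol.and
    (for'.and fg)))))))))).imp ?_
  rintro T _ ⟨h1, h2, h3, h4, h5, h6, h7, h8, h9, h10⟩
  refine ⟨h1, h2, h3, ?_, h5, h6, h7, h8, h9, ?_⟩
  · intro e p q c
    obtain ⟨b, b', s, hs, hpq⟩ := exists_pat p q (fun _ => c)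
    have := (holds_iff _).1 (h4 (b, b') (Set.mem_univ _)) s e
    simp only [eval_add, eval_cx, eval_sh, eval_sb hD, eval_var, (hpq e).1, (hpq e).2,
      asg_sp s e (show 3 < 8 by norm_num), hs 3 (by norm_num) (by norm_num)] at this
    exact this.symm
  · intro e p q α β
    obtain ⟨b, b', s, hs, hpq⟩ := exists_pat p q (fun n => if n = 4 then α else β)
    have := (holds_iff _).1 (h10 (b, b') (Set.mem_univ _)) s e
    simp only [eval_add, eval_mul, eval_cx, eval_sh, eval_var, (hpq e).1, (hpq e).2,
      asg_sp s e (show 4 < 8 by norm_num), asg_sp s e (show 5 < 8 by norm_num),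
      hs 4 (by norm_num) (by norm_num), hs 5 (by norm_num) (by norm_num), if_true,
      if_neg (show ¬ (5 = 4) by norm_num)] at this
    exact this

end

end Pool.Agent.X280.SRB
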