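import Pool.Agent.X280.SRB.Fin

/-!
# `S ∪ {∞}` is finitely based if `S` is
-/

set_option autoImplicit false

universe u

namespace Pool.Agent.X280.SRB

/-- The irregular identities of `B`, in the direction in which a variable is lost. -/
def irr (B : Set (Term × Term)) : Set (Term × Term) :=
  {e | (e ∈ B ∨ (e.2, e.1) ∈ B) ∧ ¬ e.1.vars ⊆ e.2.vars}

/-- The substitution that replaces the variables outside `r` by `r`. -/
def s0 (r : Term) : ℕ → Term := fun n => if n ∈ r.vars then .var n else r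

lemma vars_s0 {l r : Term} (h : ¬ l.vars ⊆ r.vars) : (l.subst (s0 r)).vars = r.vars := by
  obtain ⟨x, hx, hx'⟩ := Finset.not_subset.1 h
  ext m
  rw [mem_vars_subst]
  constructor
  · rintro ⟨n, _, hm⟩
    unfold s0 at hm
    split_ifs at hm with hn
    · simp only [vars_var, Finset.mem_singleton] at hm
      exact hm ▸ hn
    · exact hm
  · intro hm
    exact ⟨x, hx, by simpa [s0, hx'] using hm⟩

section
variable {S : Type u} [SR S]

lemma exists_D {l r : Term} (hlr : Holds S (l, r)) (h : ¬ l.vars ⊆ r.vars) : ∃ D : Term,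
    D.vars ⊆ (sh l).vars ∪ {0} ∧ 0 ∈ D.vars ∧
    (∀ (e : ℕ → S) (z : S), l.eval e + Dl D e z = l.eval e) ∧
    ∀ (T : Type u) [SR T] (e : ℕ → T) (y : T), Has y (Dl D e (y * y * y)) := by
  obtain ⟨x, hx, hx'⟩ := Finset.not_subset.1 h
  obtain ⟨D, h1, h2, h3, h4⟩ := exists_der.{u} (x + 8) 0 (sh l) ((mem_vars_sh l _).2 ⟨x, hx, rfl⟩)
  refine ⟨D, h1, h2, ?_, ?_⟩
  · intro e z
    have key := h3 S (asg (fun _ => z) e)
    rw [eval_sh, asg_sh, asg_sp _ _ (by norm_num : 0 < 8)] at key
    have h5 : Function.update (asg (fun _ => z) e) (x + 8) (e x + z) =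
        asg (fun _ => z) (Function.update e x (e x + z)) := by
      funext n
      by_cases hn : n = x + 8
      · subst hn; rw [Function.update_self, asg_sh, Function.update_self]
      · rw [Function.update_of_ne hn]
        by_cases h8 : n < 8
        · rw [asg_sp _ _ h8, asg_sp _ _ h8]
        · have : n = (n - 8) + 8 := by omega
          rw [this, asg_sh, asg_sh, Function.update_of_ne (by omega)]
    rw [h5, eval_sh] at key
    have h6 : l.eval (Function.update e x (e x + z)) = l.eval e := by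
      have a1 := hlr (Function.update e x (e x + z))
      have a2 := hlr e
      simp only at a1 a2
      rw [a1, a2]
      refine eval_congr fun n hn => Function.update_of_ne (fun (h : n = x) => hx' (h ▸ hn)) _ _
    rw [h6] at key
    exact key.symm
  · intro T _ e y
    exact h4 T _ y (asg_sp _ _ (by norm_num))

end

/-- The assumptions on `T`. -/
structure Hyp (B : Set (Term × Term)) (D : Term × Term → Term) (T : Type u) [SR T] : Prop where
  good : ∀ e ∈ irr B, Good e.1 e.2 (D e) T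
  back : ∀ e ∈ irr B, Holds T (e.2, e.1.subst (s0 e.2))
  reg : ∀ e ∈ B, e.1.vars = e.2.vars → Holds T e

section
variable {T : Type u} [SR T]

/-- A guarded term. -/
def Gd (B : Set (Term × Term)) (f : ℕ → T) (s : Term) : Prop :=
  ∃ e ∈ irr B, ∃ (σ : ℕ → Term) (p q c : Option Term),
    (ax (cx p q (e.1.subst σ)) c).eval f = s.eval f ∧
      (ax (cx p q (e.1.subst σ)) c).vars = s.vars

variable {B : Set (Term × Term)} {f : ℕ → T}

lemma Gd.congr {s t : Term} (h : Gd B f s) (h1 : s.eval f = t.eval f) (h2 : s.vars = t.vars) :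
    Gd B f t := by
  obtain ⟨e, he, σ, p, q, c, a, b⟩ := h
  exact ⟨e, he, σ, p, q, c, a.trans h1, b.trans h2⟩

lemma Gd.add {s : Term} (h : Gd B f s) (w : Term) : Gd B f (s + w) := by
  obtain ⟨e, he, σ, p, q, c, a, b⟩ := h
  refine ⟨e, he, σ, p, q, some (c.elim w (fun c => c + w)), ?_, ?_⟩
  · rw [eval_add, ← a]
    cases c <;> simp [ax, add_assoc]
  · rw [vars_add, ← b]
    cases c <;> simp [ax, Finset.union_assoc]

lemma Gd.mul_right {s : Term} (h : Gd B f s) (w : Term) : Gd B f (s * w) := by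
  obtain ⟨e, he, σ, p, q, c, a, b⟩ := h
  refine ⟨e, he, σ, p, some (q.elim w (fun b => b * w)), c.map (· * w), ?_, ?_⟩
  · rw [eval_mul, ← a]
    cases p <;> cases q <;> cases c <;> simp [ax, cx, lm, rm, mul_assoc, add_mul]
  · rw [vars_mul, ← b]
    ext m
    cases p <;> cases q <;> cases c <;> simp [ax, cx, lm, rm] <;> tauto

lemma Gd.mul_left {s : Term} (h : Gd B f s) (w : Term) : Gd B f (w * s) := by
  obtain ⟨e, he, σ, p, q, c, a, b⟩ := h
  refine ⟨e, he, σ, some (p.elim w (fun b => w * b)), q, c.map (w * ·), ?_, ?_⟩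
  · rw [eval_mul, ← a]
    cases p <;> cases q <;> cases c <;> simp [ax, cx, lm, rm, mul_assoc, mul_add]
  · rw [vars_mul, ← b]
    ext m
    cases p <;> cases q <;> cases c <;> simp [ax, cx, lm, rm] <;> tauto

lemma gd_left {e : Term × Term} (he : e ∈ irr B) (σ : ℕ → Term) : Gd B f (e.1.subst σ) :=
  ⟨e, he, σ, none, none, none, rfl, rfl⟩

lemma gd_right {e : Term × Term} (he : e ∈ irr B) (hb : Holds T (e.2, e.1.subst (s0 e.2)))
    (σ : ℕ → Term) : Gd B f (e.2.subst σ) := by
  refine (gd_left he (fun n => (s0 e.2 n).subst σ)).congr ?_ ?_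
  · rw [← subst_subst, eval_subst σ f (e.1.subst _), eval_subst σ f e.2]
    exact (hb _).symm
  · rw [← subst_subst]
    ext m
    rw [mem_vars_subst, mem_vars_subst, vars_s0 he.2]

/-- The first congruence. -/
def rel1 (B : Set (Term × Term)) (f : ℕ → T) (s t : Term) : Prop :=
  (s.eval f = t.eval f ∧ s.vars = t.vars) ∨ (Gd B f s ∧ Gd B f t)

lemma rel1_cong : Cong (rel1 B f) where
  refl s := Or.inl ⟨rfl, rfl⟩
  symm h := h.imp (fun h => ⟨h.1.symm, h.2.symm⟩) (fun h => ⟨h.2, h.1⟩)
  trans := by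
    rintro s t w (⟨a, b⟩ | ⟨a, b⟩) (⟨c, d⟩ | ⟨c, d⟩)
    · exact Or.inl ⟨a.trans c, b.trans d⟩
    · exact Or.inr ⟨c.congr a.symm b.symm, d⟩
    · exact Or.inr ⟨a, b.congr c d⟩
    · exact Or.inr ⟨a, d⟩
  add := by
    rintro s t w (⟨a, b⟩ | ⟨a, b⟩)
    · exact Or.inl ⟨by simp [a], by simp [b]⟩
    · exact Or.inr ⟨a.add w, b.add w⟩
  mul_right := by
    rintro s t w (⟨a, b⟩ | ⟨a, b⟩)
    · exact Or.inl ⟨by simp [a], by simp [b]⟩
    · exact Or.inr ⟨a.mul_right w, b.mul_right w⟩
  mul_left := by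
    rintro s t w (⟨a, b⟩ | ⟨a, b⟩)
    · exact Or.inl ⟨by simp [a], by simp [b]⟩
    · exact Or.inr ⟨a.mul_left w, b.mul_left w⟩
  add_assoc s t w := Or.inl ⟨by simp [add_assoc], by simp [Finset.union_assoc]⟩
  add_comm s t := Or.inl ⟨by simp [add_comm], by simp [Finset.union_comm]⟩
  mul_assoc s t w := Or.inl ⟨by simp [mul_assoc], by simp [Finset.union_assoc]⟩
  left_distrib s t w := Or.inl ⟨by simp [mul_add], by ext m; simp; tauto⟩
  right_distrib s t w := Or.inl ⟨by simp [add_mul], by ext m; simp; tauto⟩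

lemma rel1_base (hback : ∀ e ∈ irr B, Holds T (e.2, e.1.subst (s0 e.2)))
    (hreg : ∀ e ∈ B, e.1.vars = e.2.vars → Holds T e) {e : Term × Term} (he : e ∈ B)
    (σ : ℕ → Term) : rel1 B f (e.1.subst σ) (e.2.subst σ) := by
  by_cases hv : e.1.vars = e.2.vars
  · refine Or.inl ⟨?_, ?_⟩
    · rw [eval_subst, eval_subst]
      exact hreg e he hv _
    · ext m
      rw [mem_vars_subst, mem_vars_subst, hv]
  · right
    by_cases h1 : e.1.vars ⊆ e.2.vars
    · have h2 : ¬ e.2.vars ⊆ e.1.vars := fun h2 => hv (h1.antisymm h2)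
      have h3 : ((e.2, e.1) : Term × Term) ∈ irr B := ⟨Or.inr he, h2⟩
      exact ⟨gd_right h3 (hback _ h3) σ, gd_left h3 σ⟩
    · have h3 : e ∈ irr B := ⟨Or.inl he, h1⟩
      exact ⟨gd_left h3 σ, gd_right h3 (hback _ h3) σ⟩

lemma ax_cx_add (A A' : T) (p q c : Option T) :
    ax (cx p q A) c + cx p q A' = ax (cx p q (A + A')) c := by
  rw [cx_add]
  cases c with
  | none => rfl
  | some c =>
    change cx p q A + c + cx p q A' = cx p q A + cx p q A' + c
    rw [add_right_comm]

/-- The second congruence. -/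
def rel2 (f : ℕ → T) (τ : T) (s t : Term) : Prop :=
  ∀ p q : Option T, ∃ g, τ + g = τ ∧ cx p q (s.eval f) + g = cx p q (t.eval f) + g

lemma rel2_cong {τ g0 : T} (h0 : τ + g0 = τ) : Cong (rel2 f τ) := by
  have hrefl : ∀ s t : Term, s.eval f = t.eval f → rel2 f τ s t := by
    intro s t h p q
    exact ⟨g0, h0, by rw [h]⟩
  refine ⟨fun s => hrefl s s rfl, ?_, ?_, ?_, ?_, ?_, ?_, ?_, ?_, ?_, ?_⟩
  · intro s t h p q
    obtain ⟨g, h1, h2⟩ := h p q
    exact ⟨g, h1, h2.symm⟩
  · intro s t w h h' p q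
    obtain ⟨g, h1, h2⟩ := h p q
    obtain ⟨g', h1', h2'⟩ := h' p q
    refine ⟨g + g', by rw [← add_assoc, h1, h1'], ?_⟩
    rw [← add_assoc, h2, add_right_comm, h2', add_right_comm, add_assoc]
  · intro s t w h p q
    obtain ⟨g, h1, h2⟩ := h p q
    refine ⟨g, h1, ?_⟩
    rw [eval_add, eval_add, cx_add, cx_add, add_right_comm, h2, add_right_comm]
  · intro s t w h p q
    simp only [eval_mul, cx_of_mul_right]
    exact h _ _
  · intro s t w h p q
    simp only [eval_mul, cx_of_mul_left]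
    exact h _ _
  · intro s t w; exact hrefl _ _ (by simp [add_assoc])
  · intro s t; exact hrefl _ _ (by simp [add_comm])
  · intro s t w; exact hrefl _ _ (by simp [mul_assoc])
  · intro s t w; exact hrefl _ _ (by simp [mul_add])
  · intro s t w; exact hrefl _ _ (by simp [add_mul])

variable {D : Term × Term → Term}

/-- **Guards.** -/
theorem guard_lemma (hT : Hyp B D T)
    (hHas : ∀ e ∈ irr B, ∀ (η : ℕ → T) (y : T), Has y (Dl (D e) η (y * y * y)))
    {w : Term} (hw : Gd B f w) (hf : ∀ n, ∃ m ∈ w.vars, f n = f m) :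
    ∃ K : T → T, (∀ t : Term, w.eval f + K (t.eval f) = w.eval f) ∧
      ∀ t : Term, Has (t.eval f) (K ((t * t * t).eval f)) := by
  obtain ⟨e, he, σ, p, q, c, hval, hvars⟩ := hw
  rw [eval_ax, eval_cx, eval_subst] at hval
  have hg := hT.good e he
  have hH := hHas e he
  generalize hη : (fun n => (σ n).eval f) = η at hval
  have hη' : ∀ n, (σ n).eval f = η n := fun n => congrFun hη n
  set p' := p.map (Term.eval f) with hp'
  set q' := q.map (Term.eval f) with hq'
  set c' := c.map (Term.eval f) with hc'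
  set Λ := e.1.eval η with hΛ
  set τ := w.eval f with hτ
  refine ⟨fun z => cx p' q' (Dl (D e) η z), ?_, ?_⟩
  swap
  · intro t
    exact (hH η (t.eval f)).cx p' q'
  -- the set of absorbed parameters
  let K : T → Prop := fun z => τ + cx p' q' (Dl (D e) η z) = τ
  have hK_of : ∀ z, Λ + Dl (D e) η z = Λ → K z := by
    intro z hz
    change τ + _ = τ
    rw [← hval]
    exact absorb_cx hz p' q' c'
  have hKadd : ∀ y z, K y → K z → K (y + z) := by
    intro y z hy hz
    have e1 : τ = ax (cx p' q' (Λ + Dl (D e) η y + Dl (D e) η z)) c' := by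
      rw [← ax_cx_add, ← ax_cx_add, hval]
      exact (hz.symm.trans (congrArg (· + _) hy.symm))
    change τ + _ = τ
    conv_lhs => rw [e1]
    rw [ax_cx_add, hg.add, ← e1]
  have hKmul : ∀ y z, K y → K z → K (y * z) := by
    intro y z hy hz
    have e1 : τ = ax (cx p' q' (Λ + Dl (D e) η y + Dl (D e) η z)) c' := by
      rw [← ax_cx_add, ← ax_cx_add, hval]
      exact (hz.symm.trans (congrArg (· + _) hy.symm))
    change τ + _ = τ
    conv_lhs => rw [e1]
    rw [ax_cx_add, hg.mul, ← e1]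
  have hKoa : ∀ y z, K (y + z) → K y := by
    intro y z h
    have e1 : τ = ax (cx p' q' (Λ + Dl (D e) η (y + z))) c' := by
      rw [← ax_cx_add, hval]; exact h.symm
    change τ + _ = τ
    conv_lhs => rw [e1]
    rw [ax_cx_add, hg.of_add, ← e1]
  have hKob : ∀ y z, K (y + z) → K z := by
    intro y z h
    rw [add_comm] at h
    exact hKoa z y h
  have hKol : ∀ y z, K (y * z) → K y := by
    intro y z h
    have e1 : τ = ax (cx p' q' (Λ + Dl (D e) η (y * z))) c' := by
      rw [← ax_cx_add, hval]; exact h.symm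
    change τ + _ = τ
    conv_lhs => rw [e1]
    rw [ax_cx_add, hg.of_mul_left, ← e1]
  have hKor : ∀ y z, K (y * z) → K z := by
    intro y z h
    have e1 : τ = ax (cx p' q' (Λ + Dl (D e) η (y * z))) c' := by
      rw [← ax_cx_add, hval]; exact h.symm
    change τ + _ = τ
    conv_lhs => rw [e1]
    rw [ax_cx_add, hg.of_mul_right, ← e1]
  have hsub : ∀ t : Term, K (t.eval f) → ∀ n ∈ t.vars, K (f n) := by
    intro t
    induction t using term_ind with
    | hv n => intro h m hm; simp only [vars_var, Finset.mem_singleton] at hm; subst hm; exact h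
    | ha s t hs ht =>
      intro h m hm
      simp only [vars_add, Finset.mem_union] at hm
      rcases hm with hm | hm
      · exact hs (hKoa _ _ h) m hm
      · exact ht (hKob _ _ h) m hm
    | hm s t hs ht =>
      intro h m hm
      simp only [vars_mul, Finset.mem_union] at hm
      rcases hm with hm | hm
      · exact hs (hKol _ _ h) m hm
      · exact ht (hKor _ _ h) m hm
  have hKp : ∀ a, p = some a → K (a.eval f) := by
    intro a ha
    have hp2 : p' = some (a.eval f) := by rw [hp', ha]; rfl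
    change τ + _ = τ
    rw [← hval, hp2]
    exact absorb_cx (hg.a η (a.eval f)) none q' c'
  have hKq : ∀ b, q = some b → K (b.eval f) := by
    intro b hb
    have hq2 : q' = some (b.eval f) := by rw [hq', hb]; rfl
    change τ + _ = τ
    rw [← hval, hq2]
    have h1 : ∀ z : T, cx p' (some (b.eval f)) z = cx p' none (z * b.eval f) := by
      intro z
      cases p' <;> simp [cx, lm, rm, mul_assoc]
    rw [h1, h1]
    exact absorb_cx (hg.b η (b.eval f)) p' none c'
  have hKc : ∀ c1, c = some c1 → K (c1.eval f) := by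
    intro c1 hc1
    have hc2 : c' = some (c1.eval f) := by rw [hc', hc1]; rfl
    change τ + _ = τ
    rw [← hval, hc2]
    exact hg.c η p' q' (c1.eval f)
  have hKX : ∀ m ∈ w.vars, K (f m) := by
    intro m hm
    rw [← hvars] at hm
    have hm' : (∃ a, p = some a ∧ m ∈ a.vars) ∨ (∃ b, q = some b ∧ m ∈ b.vars) ∨
        (∃ c1, c = some c1 ∧ m ∈ c1.vars) ∨ m ∈ (e.1.subst σ).vars := by
      cases p <;> cases q <;> cases c <;> simp [ax, cx, lm, rm] at hm ⊢ <;> tauto
    rcases hm' with ⟨a, ha, hm⟩ | ⟨b, hb, hm⟩ | ⟨c1, hc1, hm⟩ | hm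
    · exact hsub a (hKp a ha) m hm
    · exact hsub b (hKq b hb) m hm
    · exact hsub c1 (hKc c1 hc1) m hm
    · obtain ⟨n, hn, hm⟩ := (mem_vars_subst _ _ _).1 hm
      refine hsub (σ n) ?_ m hm
      rw [hη' n]
      exact hK_of _ (hg.v n hn η)
  have hKv : ∀ n, K (f n) := by
    intro n
    obtain ⟨m, hm, h⟩ := hf n
    rw [h]; exact hKX m hm
  intro t
  change K (t.eval f)
  induction t using term_ind with
  | hv n => exact hKv n
  | ha s t hs ht => exact hKadd _ _ hs ht
  | hm s t hs ht => exact hKmul _ _ hs ht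

/-- **Guarded equality.** -/
theorem guarded {S : Type u} [SR S]
    (hB : ∀ (T : Type u) [SR T], (∀ e ∈ B, Holds T e) ↔ ∀ e, Holds S e → Holds T e)
    (hT : Hyp B D T)
    (hHas : ∀ e ∈ irr B, ∀ (η : ℕ → T) (y : T), Has y (Dl (D e) η (y * y * y)))
    {w : Term} (hw : Gd B f w) (hf : ∀ n, ∃ m ∈ w.vars, f n = f m) {e : Term × Term}
    (he : Holds S e) : ∃ g, w.eval f + g = w.eval f ∧ e.1.eval f + g = e.2.eval f + g := by
  obtain ⟨K, hK1, hK2⟩ := guard_lemma hT hHas hw hf
  have hc : Cong (rel2 f (w.eval f)) := rel2_cong (hK1 (.var 0))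
  have hirr : ∀ e ∈ irr B, ∀ σ, rel2 f (w.eval f) (e.1.subst σ) (e.2.subst σ) := by
    intro e he σ p q
    have hguard := (hT.good e he).guard (fun n => (σ n).eval f) p q
    have h1 := hK2 ((e.1 * e.2).subst σ)
    refine ⟨_, hK1 (((e.1 * e.2).subst σ) * ((e.1 * e.2).subst σ) * ((e.1 * e.2).subst σ)), ?_⟩
    rw [eval_subst, eval_subst]
    rw [eval_subst, eval_mul] at h1
    rcases h1 with ⟨α, β, h⟩ | ⟨g', α, β, h⟩
    · rw [h]; exact hguard α β
    · rw [h, add_left_comm, hguard α β, add_left_comm]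
  have key := hc.of_base hB (fun e he σ => ?_) e he
  · exact key none none
  · by_cases hv : e.1.vars = e.2.vars
    · intro p q
      refine ⟨K ((Term.var 0).eval f), hK1 (.var 0), ?_⟩
      rw [eval_subst, eval_subst]
      rw [hT.reg e he hv _]
    · by_cases h1 : e.1.vars ⊆ e.2.vars
      · have h2 : ¬ e.2.vars ⊆ e.1.vars := fun h2 => hv (h1.antisymm h2)
        exact hc.symm (hirr (e.2, e.1) ⟨Or.inr he, h2⟩ σ)
      · exact hirr e ⟨Or.inl he, h1⟩ σ

/-- **The core theorem.** -/
theorem core {S : Type u} [SR S]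
    (hB : ∀ (T : Type u) [SR T], (∀ e ∈ B, Holds T e) ↔ ∀ e, Holds S e → Holds T e)
    (hT : Hyp B D T)
    (hHas : ∀ e ∈ irr B, ∀ (η : ℕ → T) (y : T), Has y (Dl (D e) η (y * y * y)))
    {e : Term × Term} (he : Holds S e) (hv : e.1.vars = e.2.vars) : Holds T e := by
  intro f0
  obtain ⟨x0, hx0⟩ := vars_nonempty e.1
  let f : ℕ → T := fun n => if n ∈ e.1.vars then f0 n else f0 x0
  have hf1 : e.1.eval f0 = e.1.eval f := eval_congr fun n hn => by simp [f, hn]
  have hf2 : e.2.eval f0 = e.2.eval f := eval_congr fun n hn => by simp [f, hv ▸ hn]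
  have hf : ∀ n, ∃ m ∈ e.1.vars, f n = f m := by
    intro n
    by_cases hn : n ∈ e.1.vars
    · exact ⟨n, hn, rfl⟩
    · exact ⟨x0, hx0, by simp [f, hn]⟩
  rw [hf1, hf2]
  have h1 : rel1 B f e.1 e.2 :=
    rel1_cong.of_base hB (fun e he σ => rel1_base hT.back hT.reg he σ) e he
  rcases h1 with h1 | ⟨h1, h2⟩
  · exact h1.1
  · obtain ⟨g, a1, a2⟩ := guarded hB hT hHas h1 hf he
    obtain ⟨g', b1, b2⟩ := guarded hB hT hHas h2 (hv ▸ hf) he
    -- u = u + g = v + g, v = v + g' = u + g'
    calc e.1.eval f = e.2.eval f + g := by rw [← a2, a1]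
      _ = (e.1.eval f + g') + g := by rw [b2, b1]
      _ = (e.1.eval f + g) + g' := by rw [add_right_comm]
      _ = e.1.eval f + g' := by rw [a1]
      _ = e.2.eval f := by rw [b2, b1]

end

/-- **Finite bases.** -/
theorem finitelyBased_withInf (S : Type u) [SR S] [Nonempty S] (h : FinitelyBased S) :
    FinitelyBased (WithInf S) := by
  classical
  obtain ⟨B, hfin, hB⟩ := h
  have hBS : ∀ e ∈ B, Holds S e := (hB S).2 fun e he => he
  have hirrS : ∀ e ∈ irr B, Holds S e := by
    rintro e ⟨he | he, _⟩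
    · exact hBS e he
    · exact fun f => (hBS _ he f).symm
  have hirrfin : (irr B).Finite := by
    refine (hfin.union (hfin.image Prod.swap)).subset ?_
    rintro e ⟨he | he, _⟩
    · exact Or.inl he
    · exact Or.inr ⟨_, he, rfl⟩
  have hD : ∀ e ∈ irr B, ∃ D : Term, D.vars ⊆ (sh e.1).vars ∪ {0} ∧ 0 ∈ D.vars ∧
      (∀ (η : ℕ → S) (z : S), e.1.eval η + Dl D η z = e.1.eval η) ∧
      ∀ (T : Type u) [SR T] (η : ℕ → T) (y : T), Has y (Dl D η (y * y * y)) :=
    fun e he => exists_D (hirrS e he) he.2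
  have : Nonempty Term := ⟨.var 0⟩
  choose! D hD1 hD2 hD3 hD4 using hD
  have hFE : FE S (fun T _ => Hyp B D T) := by
    have f1 : FE S (fun T _ => ∀ e ∈ irr B, Good e.1 e.2 (D e) T) :=
      FE.ball hirrfin fun e he => good_fe (hirrS e he) (hD1 e he) (hD2 e he) (hD3 e he)
    have f2 : FE S (fun T _ => ∀ e ∈ irr B, Holds T (e.2, e.1.subst (s0 e.2))) := by
      refine FE.ball hirrfin fun e he => FE.single ?_ (vars_s0 he.2).symm
      intro f
      have h1 := hirrS e he
      change e.2.eval f = (e.1.subst (s0 e.2)).eval f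
      rw [eval_subst, h1]
      refine (eval_congr fun n hn => ?_).symm
      simp [s0, hn]
    have f3 : FE S (fun T _ => ∀ e ∈ {e ∈ B | e.1.vars = e.2.vars}, Holds T e) :=
      FE.ball (hfin.subset (Set.sep_subset _ _)) fun e he => FE.single (hBS e he.1) he.2
    exact (f1.and (f2.and f3)).imp fun T _ h => ⟨h.1, h.2.1, fun e he hv => h.2.2 e ⟨he, hv⟩⟩
  obtain ⟨E, hE1, hE2, hE3⟩ := hFE
  refine ⟨E, hE1, fun T _ => ⟨fun hT e he => ?_, fun hT e he => ?_⟩⟩
  · exact core hB (hE3 T hT) (fun e he η y => hD4 e he T η y) (holds_of_withInf he)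
      (vars_eq_of_withInf he)
  · exact hT e (holds_withInf (hE2 e he).2 (hE2 e he).1)

end Pool.Agent.X280.SRB
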