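import Pool.Agent.X280.SRB.Basic

/-!
# Quotients of the term algebra
-/

set_option autoImplicit false

universe u

namespace Pool.Agent.X280.SRB

/-- A congruence on terms whose quotient is a semiring. -/
structure Cong (R : Term → Term → Prop) : Prop where
  refl : ∀ s, R s s
  symm : ∀ {s t}, R s t → R t s
  trans : ∀ {s t w}, R s t → R t w → R s w
  add : ∀ {s t} (w), R s t → R (s + w) (t + w)
  mul_right : ∀ {s t} (w), R s t → R (s * w) (t * w)
  mul_left : ∀ {s t} (w), R s t → R (w * s) (w * t)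
  add_assoc : ∀ s t w, R (s + t + w) (s + (t + w))
  add_comm : ∀ s t, R (s + t) (t + s)
  mul_assoc : ∀ s t w, R (s * t * w) (s * (t * w))
  left_distrib : ∀ s t w, R (s * (t + w)) (s * t + s * w)
  right_distrib : ∀ s t w, R ((s + t) * w) (s * w + t * w)

variable {R : Term → Term → Prop}

/-- The setoid of the congruence. -/
def Cong.setoid (h : Cong R) : Setoid Term := ⟨R, ⟨h.refl, h.symm, h.trans⟩⟩

/-- The quotient. -/
def Cong.Q (h : Cong R) : Type u := ULift.{u} (Quotient h.setoid)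

/-- The class of a term. -/
def Cong.cls (h : Cong R) (t : Term) : Cong.Q.{u} h := ⟨Quotient.mk h.setoid t⟩

lemma Cong.cls_eq (h : Cong R) {s t : Term} : (h.cls s : Cong.Q.{u} h) = h.cls t ↔ R s t := by
  constructor
  · intro e
    exact Quotient.exact (congrArg ULift.down e)
  · intro e
    exact congrArg ULift.up (Quotient.sound e)

lemma Cong.cls_surj (h : Cong R) (q : Cong.Q.{u} h) : ∃ t, h.cls t = q := by
  obtain ⟨q⟩ := q
  obtain ⟨t, rfl⟩ := Quotient.exists_rep q
  exact ⟨t, rfl⟩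

lemma Cong.add' (h : Cong R) {s t s' t' : Term} (h1 : R s t) (h2 : R s' t') :
    R (s + s') (t + t') :=
  h.trans (h.add s' h1) (h.trans (h.add_comm t s') (h.trans (h.add t h2) (h.add_comm t' t)))

lemma Cong.mul' (h : Cong R) {s t s' t' : Term} (h1 : R s t) (h2 : R s' t') :
    R (s * s') (t * t') :=
  h.trans (h.mul_right s' h1) (h.mul_left t h2)

/-- The semiring structure of the quotient. -/
noncomputable instance (h : Cong R) : SR (Cong.Q.{u} h) where
  add a b := ⟨Quotient.map₂ (· + ·) (fun _ _ h1 _ _ h2 => h.add' h1 h2) a.down b.down⟩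
  mul a b := ⟨Quotient.map₂ (· * ·) (fun _ _ h1 _ _ h2 => h.mul' h1 h2) a.down b.down⟩
  add_assoc a b c := by
    obtain ⟨a, rfl⟩ := h.cls_surj a
    obtain ⟨b, rfl⟩ := h.cls_surj b
    obtain ⟨c, rfl⟩ := h.cls_surj c
    exact h.cls_eq.2 (h.add_assoc a b c)
  add_comm a b := by
    obtain ⟨a, rfl⟩ := h.cls_surj a
    obtain ⟨b, rfl⟩ := h.cls_surj b
    exact h.cls_eq.2 (h.add_comm a b)
  mul_assoc a b c := by
    obtain ⟨a, rfl⟩ := h.cls_surj a
    obtain ⟨b, rfl⟩ := h.cls_surj b
    obtain ⟨c, rfl⟩ := h.cls_surj c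
    exact h.cls_eq.2 (h.mul_assoc a b c)
  left_distrib a b c := by
    obtain ⟨a, rfl⟩ := h.cls_surj a
    obtain ⟨b, rfl⟩ := h.cls_surj b
    obtain ⟨c, rfl⟩ := h.cls_surj c
    exact h.cls_eq.2 (h.left_distrib a b c)
  right_distrib a b c := by
    obtain ⟨a, rfl⟩ := h.cls_surj a
    obtain ⟨b, rfl⟩ := h.cls_surj b
    obtain ⟨c, rfl⟩ := h.cls_surj c
    exact h.cls_eq.2 (h.right_distrib a b c)

lemma Cong.cls_add (h : Cong R) (s t : Term) : (h.cls (s + t) : Cong.Q.{u} h) = h.cls s + h.cls t := rfl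
lemma Cong.cls_mul (h : Cong R) (s t : Term) : (h.cls (s * t) : Cong.Q.{u} h) = h.cls s * h.cls t := rfl

lemma Cong.eval_cls (h : Cong R) (σ : ℕ → Term) (t : Term) :
    t.eval (fun n => (h.cls (σ n) : Cong.Q.{u} h)) = h.cls (t.subst σ) := by
  induction t using term_ind with
  | hv n => rfl
  | ha s t hs ht => simp [hs, ht, h.cls_add]
  | hm s t hs ht => simp [hs, ht, h.cls_mul]

/-- **Quotients as models.**  If `B` defines the variety of `S` and the congruence `R` contains all
instances of the identities in `B`, then `R` contains all identities of `S`. -/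
theorem Cong.of_base {S : Type u} [SR S] {B : Set (Term × Term)}
    (hB : ∀ (T : Type u) [SR T], (∀ e ∈ B, Holds T e) ↔ ∀ e, Holds S e → Holds T e)
    (h : Cong R) (hR : ∀ e ∈ B, ∀ σ, R (e.1.subst σ) (e.2.subst σ)) (e : Term × Term)
    (he : Holds S e) : R e.1 e.2 := by
  have h1 : ∀ e ∈ B, Holds (Cong.Q.{u} h) e := by
    intro e he f
    choose σ hσ using fun n => h.cls_surj (f n)
    have hf : f = fun n => (h.cls (σ n) : Cong.Q.{u} h) := by
      funext n
      exact (hσ n).symm
    rw [hf, h.eval_cls, h.eval_cls]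
    exact h.cls_eq.2 (hR e he σ)
  have h2 := (hB (Cong.Q.{u} h)).1 h1 e he (fun n => h.cls (.var n))
  rw [h.eval_cls, h.eval_cls, subst_id, subst_id] at h2
  exact h.cls_eq.1 h2

end Pool.Agent.X280.SRB
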